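import Pool.Agent.Helper75.Torus.Goals

set_option autoImplicit false

open Set Matrix

namespace Pool.Agent.Helper94.Torus

open Pool.Agent.Helper75.Torus

/-- expansion of a linear map on the basis -/
theorem expand (L : E →L[ℝ] E) (v : E) (i : Fin 3) :
    L v i = L (Pi.single 0 1) i * v 0 + L (Pi.single 1 1) i * v 1 + L (Pi.single 2 1) i * v 2 := by
  have hv : v = v 0 • (Pi.single 0 1 : E) + v 1 • (Pi.single 1 1 : E) + v 2 • (Pi.single 2 1 : E) := by
    funext k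
    fin_cases k <;> simp
  conv_lhs => rw [hv]
  simp only [map_add, map_smul, Pi.add_apply, Pi.smul_apply, smul_eq_mul]
  ring

theorem det_eq (L : E →L[ℝ] E) :
    L.det = L (Pi.single 0 1) 0 * L (Pi.single 1 1) 1 * L (Pi.single 2 1) 2
      - L (Pi.single 0 1) 0 * L (Pi.single 2 1) 1 * L (Pi.single 1 1) 2
      - L (Pi.single 1 1) 0 * L (Pi.single 0 1) 1 * L (Pi.single 2 1) 2
      + L (Pi.single 1 1) 0 * L (Pi.single 2 1) 1 * L (Pi.single 0 1) 2
      + L (Pi.single 2 1) 0 * L (Pi.single 0 1) 1 * L (Pi.single 1 1) 2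
      - L (Pi.single 2 1) 0 * L (Pi.single 1 1) 1 * L (Pi.single 0 1) 2 := by
  have h1 : L.det = (LinearMap.toMatrix' (L : E →ₗ[ℝ] E)).det := by
    rw [LinearMap.det_toMatrix']
  have h2 : ∀ i j : Fin 3, LinearMap.toMatrix' (L : E →ₗ[ℝ] E) i j = L (Pi.single j 1) i := by
    intro i j
    rw [LinearMap.toMatrix'_apply]
    rfl
  rw [h1, Matrix.det_fin_three]
  simp only [h2]

theorem cof0 (J : E →L[ℝ] E) (κ : E) : cofv J κ 0 =
    κ 0 * (J (ee 1) 1 * J (ee 2) 2 - J (ee 1) 2 * J (ee 2) 1) +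
    κ 1 * (J (ee 2) 1 * J (ee 0) 2 - J (ee 2) 2 * J (ee 0) 1) +
    κ 2 * (J (ee 0) 1 * J (ee 1) 2 - J (ee 0) 2 * J (ee 1) 1) := by
  simp [cofv, cross_apply]

theorem cof1 (J : E →L[ℝ] E) (κ : E) : cofv J κ 1 =
    κ 0 * (J (ee 1) 2 * J (ee 2) 0 - J (ee 1) 0 * J (ee 2) 2) +
    κ 1 * (J (ee 2) 2 * J (ee 0) 0 - J (ee 2) 0 * J (ee 0) 2) +
    κ 2 * (J (ee 0) 2 * J (ee 1) 0 - J (ee 0) 0 * J (ee 1) 2) := by
  simp [cofv, cross_apply]

theorem cof2 (J : E →L[ℝ] E) (κ : E) : cofv J κ 2 =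
    κ 0 * (J (ee 1) 0 * J (ee 2) 1 - J (ee 1) 1 * J (ee 2) 0) +
    κ 1 * (J (ee 2) 0 * J (ee 0) 1 - J (ee 2) 1 * J (ee 0) 0) +
    κ 2 * (J (ee 0) 0 * J (ee 1) 1 - J (ee 0) 1 * J (ee 1) 0) := by
  simp [cofv, cross_apply]

/-- G_COF -/
theorem thm : G_COF := by
  intro J hJ
  have hex : ∀ (v : E) (i : Fin 3),
      J v i = J (ee 0) i * v 0 + J (ee 1) i * v 1 + J (ee 2) i * v 2 := fun v i => expand J v i
  have hD : J (ee 0) 0 * J (ee 1) 1 * J (ee 2) 2
      - J (ee 0) 0 * J (ee 2) 1 * J (ee 1) 2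
      - J (ee 1) 0 * J (ee 0) 1 * J (ee 2) 2
      + J (ee 1) 0 * J (ee 2) 1 * J (ee 0) 2
      + J (ee 2) 0 * J (ee 0) 1 * J (ee 1) 2
      - J (ee 2) 0 * J (ee 1) 1 * J (ee 0) 2 = 1 := by
    rw [← hJ, det_eq J]
    rfl
  have he : ∀ i j : Fin 3, ee i j = if j = i then 1 else 0 := by
    intro i j
    simp [ee, Pi.single_apply]
  have hdot : ∀ a b : E, a ⬝ᵥ b = a 0 * b 0 + a 1 * b 1 + a 2 * b 2 := by
    intro a b
    simp [dotProduct, Fin.sum_univ_three]
  have cr0 : ∀ a b : E, crossProduct a b 0 = a 1 * b 2 - a 2 * b 1 := fun a b => rfl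
  have cr1 : ∀ a b : E, crossProduct a b 1 = a 2 * b 0 - a 0 * b 2 := fun a b => rfl
  have cr2 : ∀ a b : E, crossProduct a b 2 = a 0 * b 1 - a 1 * b 0 := fun a b => rfl
  have h1 : ∀ κ Y : E, cofv J κ ⬝ᵥ J Y = κ ⬝ᵥ Y := by
    intro κ Y
    rw [hdot, hdot, cof0, cof1, cof2, hex Y 0, hex Y 1, hex Y 2]
    linear_combination (κ 0 * Y 0 + κ 1 * Y 1 + κ 2 * Y 2) * hD
  have h5 : ∀ κ : E, trn J (cofv J κ) = κ := by
    intro κ
    funext i
    show cofv J κ ⬝ᵥ J (ee i) = κ i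
    rw [h1, hdot, he, he, he]
    fin_cases i <;> simp
  refine ⟨h1, ?_, ?_, ?_, h5, ?_, ?_, ?_⟩
  · intro a b
    funext i
    fin_cases i
    · show (crossProduct (J a) (J b)) 0 = cofv J (crossProduct a b) 0
      rw [cof0]
      simp only [cr0, cr1, cr2]
      rw [hex a 1, hex b 2, hex a 2, hex b 1]
      ring
    · show (crossProduct (J a) (J b)) 1 = cofv J (crossProduct a b) 1
      rw [cof1]
      simp only [cr0, cr1, cr2]
      rw [hex a 2, hex b 0, hex a 0, hex b 2]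
      ring
    · show (crossProduct (J a) (J b)) 2 = cofv J (crossProduct a b) 2
      rw [cof2]
      simp only [cr0, cr1, cr2]
      rw [hex a 0, hex b 1, hex a 1, hex b 0]
      ring
  · intro z
    have e : ∀ j : Fin 3, inv3 J z j = cofv J (ee j) 0 * z 0 + cofv J (ee j) 1 * z 1 +
        cofv J (ee j) 2 * z 2 := fun j => hdot _ _
    funext i
    rw [hex, e, e, e]
    simp only [cof0, cof1, cof2]
    fin_cases i
    · show _ = z 0
      simp only [he]
      simp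
      linear_combination (z 0) * hD
    · show _ = z 1
      simp only [he]
      simp
      linear_combination (z 1) * hD
    · show _ = z 2
      simp only [he]
      simp
      linear_combination (z 2) * hD
  · intro z
    funext i
    show cofv J (ee i) ⬝ᵥ J z = z i
    rw [h1, hdot, he, he, he]
    fin_cases i <;> simp
  · intro κ
    have e : ∀ j : Fin 3, trn J κ j = κ 0 * J (ee j) 0 + κ 1 * J (ee j) 1 + κ 2 * J (ee j) 2 :=
      fun j => hdot _ _
    funext i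
    fin_cases i
    · show cofv J (trn J κ) 0 = κ 0
      rw [cof0, e, e, e]
      linear_combination (κ 0) * hD
    · show cofv J (trn J κ) 1 = κ 1
      rw [cof1, e, e, e]
      linear_combination (κ 1) * hD
    · show cofv J (trn J κ) 2 = κ 2
      rw [cof2, e, e, e]
      linear_combination (κ 2) * hD
  · intro a b
    have e : ∀ j : Fin 3, trn J a j = a 0 * J (ee j) 0 + a 1 * J (ee j) 1 + a 2 * J (ee j) 2 :=
      fun j => hdot _ _
    rw [hdot, hdot, e, e, e, hex b 0, hex b 1, hex b 2]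
    ring
  · intro κ hκ
    have hne : cofv J κ ≠ 0 := by
      intro h0
      apply hκ
      rw [← h5 κ, h0]
      funext i
      show (0 : E) ⬝ᵥ J (ee i) = 0
      rw [zero_dotProduct]
    unfold nn
    apply Real.sqrt_pos.2
    have h0 : 0 ≤ cofv J κ ⬝ᵥ cofv J κ := by
      rw [hdot]
      nlinarith [mul_self_nonneg (cofv J κ 0), mul_self_nonneg (cofv J κ 1),
        mul_self_nonneg (cofv J κ 2)]
    refine lt_of_le_of_ne h0 ?_
    intro h
    exact hne (dotProduct_self_eq_zero.1 h.symm)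

end Pool.Agent.Helper94.Torus
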